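import Mathlib

/-!
# Latin cubes near reducible latin cubes have transversals

A latin cube of order `n` is *reducible* if it is of the form `(x, y, z) ↦ A (B x y) z` with latin
squares `A`, `B` of order `n`, up to a permutation of the three coordinate directions.  We show: a
latin cube of order `n` which differs from some reducible latin cube in fewer than `2 n (n - 1)`
cells has a transversal.

Proof. For every symbol `c` of `B` let `σ_c` be the permutation with `B x (σ_c x) = c`. The sets
`{(x, σ_c x, z)}` partition the cube, so for some `c` fewer than `2 (n - 1)` of the cells of the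
`n × n` matrix `M x z = L x (σ_c x) z` are changed, i.e. different from `A c z`. If there is a
permutation `τ` such that all cells `(x, τ x)` are unchanged then `L x (σ_c x) (τ x) = A c (τ x)` and
`(σ_c, τ)` is a transversal of `L`. Otherwise, by Hall's theorem, there is an `a × b` block of
changed cells, `a + b = n + 1`. But every nonempty row and every nonempty column of the set of changed cells
has at least two elements: for the rows since `z ↦ L x y z` and `z ↦ A c z` are bijective; for the
columns since `σ_c x` would be the only place for the symbol `A c z` in the line `{x} × [n] × {z}`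
of the latin cube `L`.  So there are at least `2 (n - 1)` changed cells, a contradiction.
-/

set_option autoImplicit false

namespace Pool.Agent.Results.MP_cdd51b_co.NearReducible

/-- no symbol is repeated in a row or in a column -/
def LatinSquare {n : ℕ} (A : Fin n → Fin n → Fin n) : Prop :=
  (∀ x, Function.Injective (fun y => A x y)) ∧ ∀ y, Function.Injective (fun x => A x y)

/-- no symbol is repeated along a line parallel to an axis -/
def LatinCube {n : ℕ} (L : Fin n → Fin n → Fin n → Fin n) : Prop :=
  (∀ y z, Function.Injective (fun x => L x y z)) ∧ (∀ x z, Function.Injective (fun y => L x y z)) ∧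
    ∀ x y, Function.Injective (fun z => L x y z)

/-- the number of cells where two cubes differ -/
def dist {n : ℕ} (L L' : Fin n → Fin n → Fin n → Fin n) : ℕ :=
  (Finset.univ.filter fun p : Fin n × Fin n × Fin n => L p.1 p.2.1 p.2.2 ≠ L' p.1 p.2.1 p.2.2).card

/-- the reducible latin cubes, for the three directions -/
def Reducible {n : ℕ} (R : Fin n → Fin n → Fin n → Fin n) : Prop :=
  ∃ A B : Fin n → Fin n → Fin n, LatinSquare A ∧ LatinSquare B ∧
    ((∀ x y z, R x y z = A (B x y) z) ∨ (∀ x y z, R x y z = A (B x z) y) ∨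
      ∀ x y z, R x y z = A (B y z) x)

/-- a transversal: `n` cells, no two of them in a common layer of any direction, with different
symbols -/
def HasTransversal {n : ℕ} (L : Fin n → Fin n → Fin n → Fin n) : Prop :=
  ∃ σ τ : Equiv.Perm (Fin n), Function.Injective (fun x => L x (σ x) (τ x))

theorem two_le_card {n : ℕ} {P : Fin n → Prop} [DecidablePred P] {z : Fin n} (hz : P z)
    (h : ∃ z', z' ≠ z ∧ P z') : 2 ≤ (Finset.univ.filter P).card := by
  obtain ⟨z', h1, h2⟩ := h
  have h3 : ({z, z'} : Finset (Fin n)) ⊆ Finset.univ.filter P := by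
    intro w hw
    rw [Finset.mem_insert, Finset.mem_singleton] at hw
    rw [Finset.mem_filter]
    rcases hw with rfl | rfl
    · exact ⟨Finset.mem_univ _, hz⟩
    · exact ⟨Finset.mem_univ _, h2⟩
  calc 2 = ({z, z'} : Finset (Fin n)).card := (Finset.card_pair h1.symm).symm
    _ ≤ _ := Finset.card_le_card h3

theorem card_rows {n : ℕ} (D : Fin n → Fin n → Prop) [∀ x z, Decidable (D x z)] :
    (Finset.univ.filter fun p : Fin n × Fin n => D p.1 p.2).card =
      ∑ x, (Finset.univ.filter fun z => D x z).card := by
  rw [Finset.card_filter, Fintype.sum_prod_type]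
  refine Finset.sum_congr rfl fun x _ => ?_
  rw [Finset.card_filter]

theorem card_cols {n : ℕ} (D : Fin n → Fin n → Prop) [∀ x z, Decidable (D x z)] :
    (Finset.univ.filter fun p : Fin n × Fin n => D p.1 p.2).card =
      ∑ z, (Finset.univ.filter fun x => D x z).card := by
  rw [Finset.card_filter, Fintype.sum_prod_type_right]
  refine Finset.sum_congr rfl fun x _ => ?_
  rw [Finset.card_filter]

/-- Hall's theorem for the complement of a small set all of whose nonempty rows and columns have at
least two elements. -/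
theorem avoid {n : ℕ} (D : Fin n → Fin n → Prop) [∀ x z, Decidable (D x z)]
    (hr : ∀ x z, D x z → ∃ z', z' ≠ z ∧ D x z') (hc : ∀ x z, D x z → ∃ x', x' ≠ x ∧ D x' z)
    (hcard : (Finset.univ.filter fun p : Fin n × Fin n => D p.1 p.2).card < 2 * (n - 1)) :
    ∃ τ : Equiv.Perm (Fin n), ∀ x, ¬ D x (τ x) := by
  classical
  set t : Fin n → Finset (Fin n) := fun x => Finset.univ.filter fun z => ¬ D x z with ht
  have hall : ∀ s : Finset (Fin n), s.card ≤ (s.biUnion t).card := by
    intro s
    by_contra hs
    rw [not_le] at hs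
    set Z := Finset.univ \ s.biUnion t with hZ
    have hZD : ∀ x ∈ s, ∀ z ∈ Z, D x z := by
      intro x hx z hz
      by_contra hD
      rw [hZ, Finset.mem_sdiff] at hz
      exact hz.2 (Finset.mem_biUnion.2 ⟨x, hx, by rw [ht]; simpa using hD⟩)
    have hZc : Z.card = n - (s.biUnion t).card := by
      rw [hZ, Finset.card_sdiff_of_subset (Finset.subset_univ _), Finset.card_univ,
        Fintype.card_fin]
    have hsn : s.card ≤ n := by
      simpa using Finset.card_le_univ s
    have hsub : s ×ˢ Z ⊆ Finset.univ.filter fun p : Fin n × Fin n => D p.1 p.2 := by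
      intro p hp
      rw [Finset.mem_product] at hp
      exact Finset.mem_filter.2 ⟨Finset.mem_univ _, hZD _ hp.1 _ hp.2⟩
    have hprod : s.card * Z.card < 2 * (n - 1) := by
      rw [← Finset.card_product]
      exact (Finset.card_le_card hsub).trans_lt hcard
    have hab : n + 1 ≤ s.card + Z.card := by omega
    rcases Nat.lt_or_ge s.card 2 with h1 | h1
    · -- one row
      have h2 : s.card = 1 := by omega
      obtain ⟨x, hx⟩ := Finset.card_eq_one.1 h2
      have hZu : Z = Finset.univ := by
        rw [← Finset.card_eq_iff_eq_univ, Fintype.card_fin]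
        omega
      have h3 : ∀ z, D x z := fun z => hZD x (by rw [hx]; simp) z (by rw [hZu]; simp)
      have h4 : 2 * n ≤ (Finset.univ.filter fun p : Fin n × Fin n => D p.1 p.2).card := by
        rw [card_cols]
        calc 2 * n = ∑ _z : Fin n, 2 := by simp [mul_comm]
          _ ≤ _ := Finset.sum_le_sum fun z _ =>
            two_le_card (P := fun x => D x z) (h3 z) (hc x z (h3 z))
      omega
    · rcases Nat.lt_or_ge Z.card 2 with h5 | h5
      · -- one column
        have h2 : Z.card = 1 := by omega
        obtain ⟨z, hz⟩ := Finset.card_eq_one.1 h2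
        have hsu : s = Finset.univ := by
          rw [← Finset.card_eq_iff_eq_univ, Fintype.card_fin]
          omega
        have h3 : ∀ x, D x z := fun x => hZD x (by rw [hsu]; simp) z (by rw [hz]; simp)
        have h4 : 2 * n ≤ (Finset.univ.filter fun p : Fin n × Fin n => D p.1 p.2).card := by
          rw [card_rows]
          calc 2 * n = ∑ _x : Fin n, 2 := by simp [mul_comm]
            _ ≤ _ := Finset.sum_le_sum fun x _ => two_le_card (h3 x) (hr x z (h3 x))
        omega
      · obtain ⟨a, ha⟩ := Nat.exists_eq_add_of_le h1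
        obtain ⟨b, hb⟩ := Nat.exists_eq_add_of_le h5
        have h6 : 2 * (n - 1) ≤ s.card * Z.card := by
          rw [ha, hb] at hab ⊢
          have : (2 + a) * (2 + b) = 4 + 2 * a + 2 * b + a * b := by ring
          omega
        omega
  obtain ⟨f, hf, hft⟩ := (Finset.all_card_le_biUnion_card_iff_exists_injective t).1 hall
  refine ⟨Equiv.ofBijective f (Finite.injective_iff_bijective.1 hf), fun x => ?_⟩
  have h := hft x
  rw [ht] at h
  exact (Finset.mem_filter.1 h).2

theorem exists_other {n : ℕ} {f g : Fin n → Fin n} (hf : Function.Injective f)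
    (hg : Function.Injective g) {z : Fin n} (h : f z ≠ g z) : ∃ z', z' ≠ z ∧ f z' ≠ g z' := by
  by_contra hcon
  push Not at hcon
  obtain ⟨w, hw⟩ := (Finite.injective_iff_bijective.1 hg).2 (f z)
  by_cases hwz : w = z
  · rw [hwz] at hw
    exact h hw.symm
  · exact hwz (hf ((hcon w hwz).trans hw))

/-- the first direction -/
theorem first {n : ℕ} (L : Fin n → Fin n → Fin n → Fin n) (hL : LatinCube L)
    (A B : Fin n → Fin n → Fin n) (hA : LatinSquare A) (hB : LatinSquare B)
    (hd : (Finset.univ.filter fun p : Fin n × Fin n × Fin n =>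
      L p.1 p.2.1 p.2.2 ≠ A (B p.1 p.2.1) p.2.2).card < 2 * n * (n - 1)) : HasTransversal L := by
  classical
  have hBb : ∀ x, Function.Bijective (fun y => B x y) := fun x =>
    Finite.injective_iff_bijective.1 (hB.1 x)
  set s : Fin n → Fin n → Fin n := fun c x => (Equiv.ofBijective _ (hBb x)).symm c with hs
  have hBs : ∀ c x, B x (s c x) = c := fun c x =>
    (Equiv.ofBijective _ (hBb x)).apply_symm_apply c
  have hsi : ∀ c, Function.Injective (s c) := by
    intro c x x' h
    have h1 : B x (s c x) = B x' (s c x) := by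
      rw [hBs c x, h, hBs c x']
    exact hB.2 _ h1
  set D : Fin n → Fin n → Fin n → Prop := fun c x z => L x (s c x) z ≠ A c z with hD
  have hex : ∃ c, (Finset.univ.filter fun p : Fin n × Fin n => D c p.1 p.2).card < 2 * (n - 1) := by
    by_contra hcon
    push Not at hcon
    have h1 : ∀ c, (Finset.univ.filter fun p : Fin n × Fin n => D c p.1 p.2).card ≤
        ((Finset.univ.filter fun p : Fin n × Fin n × Fin n =>
          L p.1 p.2.1 p.2.2 ≠ A (B p.1 p.2.1) p.2.2).filter fun p => B p.1 p.2.1 = c).card := by
      intro c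
      refine Finset.card_le_card_of_injOn (fun p => (p.1, s c p.1, p.2)) ?_ ?_
      · intro p hp
        have hp' : D c p.1 p.2 := (Finset.mem_filter.1 hp).2
        refine Finset.mem_coe.2 (Finset.mem_filter.2 ⟨Finset.mem_filter.2
          ⟨Finset.mem_univ _, ?_⟩, hBs c p.1⟩)
        show L p.1 (s c p.1) p.2 ≠ A (B p.1 (s c p.1)) p.2
        rw [hBs]
        exact hp'
      · intro p _ q _ h
        have h2 := congrArg Prod.fst h
        have h3 := congrArg (fun u : Fin n × Fin n × Fin n => u.2.2) h
        exact Prod.ext h2 h3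
    have h2 := Finset.card_eq_sum_card_fiberwise (f := fun p : Fin n × Fin n × Fin n =>
        B p.1 p.2.1) (s := Finset.univ.filter fun p : Fin n × Fin n × Fin n =>
          L p.1 p.2.1 p.2.2 ≠ A (B p.1 p.2.1) p.2.2) (t := Finset.univ)
        (fun _ _ => Finset.mem_coe.2 (Finset.mem_univ _))
    have h3 : n * (2 * (n - 1)) ≤ ∑ c : Fin n, ((Finset.univ.filter
        fun p : Fin n × Fin n × Fin n =>
          L p.1 p.2.1 p.2.2 ≠ A (B p.1 p.2.1) p.2.2).filter fun p => B p.1 p.2.1 = c).card := by
      calc n * (2 * (n - 1)) = ∑ _c : Fin n, 2 * (n - 1) := by simp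
        _ ≤ _ := Finset.sum_le_sum fun c _ => (hcon c).trans (h1 c)
    rw [← h2] at h3
    have h4 : n * (2 * (n - 1)) = 2 * n * (n - 1) := by ring
    omega
  obtain ⟨c, hc⟩ := hex
  obtain ⟨τ, hτ⟩ := avoid (D c) (fun x z h =>
      exists_other (hL.2.2 x (s c x)) (hA.1 c) h) (by
    intro x z h
    by_contra hcon
    push Not at hcon
    obtain ⟨y, hy⟩ := (Finite.injective_iff_bijective.1 (hL.2.1 x z)).2 (A c z)
    have hy' : L x y z = A c z := hy
    obtain ⟨x', hx'⟩ := (Finite.injective_iff_bijective.1 (hsi c)).2 y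
    have hne : x' ≠ x := by
      rintro rfl
      rw [← hx'] at hy'
      exact h hy'
    have h1 : ¬ D c x' z := hcon x' hne
    have h2 : L x' (s c x') z = A c z := not_not.1 h1
    rw [hx'] at h2
    exact hne (hL.1 y z (h2.trans hy'.symm))) hc
  refine ⟨Equiv.ofBijective (s c) (Finite.injective_iff_bijective.1 (hsi c)), τ, ?_⟩
  intro x x' h
  have h1 : ∀ x, L x (s c x) (τ x) = A c (τ x) := fun x => not_not.1 (hτ x)
  have h2 : L x (s c x) (τ x) = L x' (s c x') (τ x') := h
  rw [h1, h1] at h2
  exact τ.injective (hA.1 c h2)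

/-- **Theorem.** Every latin cube of order `n` which differs in fewer than `2 n (n - 1)` cells from
a reducible latin cube has a transversal. -/
theorem result : ∀ (n : ℕ) (L R : Fin n → Fin n → Fin n → Fin n), LatinCube L → Reducible R →
    dist L R < 2 * n * (n - 1) → HasTransversal L := by
  intro n L R hL hR hd
  obtain ⟨A, B, hA, hB, h⟩ := hR
  unfold dist at hd
  rcases h with h | h | h
  · simp only [h] at hd
    exact first L hL A B hA hB hd
  · have hL' : LatinCube (fun x z y => L x y z) :=
      ⟨fun z y => hL.1 y z, fun x y => hL.2.2 x y, fun x z => hL.2.1 x z⟩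
    have hd' : (Finset.univ.filter fun p : Fin n × Fin n × Fin n =>
        (fun x z y => L x y z) p.1 p.2.1 p.2.2 ≠ A (B p.1 p.2.1) p.2.2).card <
          2 * n * (n - 1) := by
      refine lt_of_le_of_lt ?_ hd
      refine Finset.card_le_card_of_injOn (fun p => (p.1, p.2.2, p.2.1)) ?_ ?_
      · intro p hp
        have hp' := (Finset.mem_filter.1 hp).2
        refine Finset.mem_coe.2 (Finset.mem_filter.2 ⟨Finset.mem_univ _, ?_⟩)
        rw [h]
        exact hp'
      · rintro ⟨a, b, c⟩ _ ⟨a', b', c'⟩ _ e
        simp only [Prod.mk.injEq] at e ⊢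
        tauto
    obtain ⟨σ, τ, hst⟩ := first (fun x z y => L x y z) hL' A B hA hB hd'
    exact ⟨τ, σ, hst⟩
  · have hL' : LatinCube (fun y z x => L x y z) :=
      ⟨fun z x => hL.2.1 x z, fun y x => hL.2.2 x y, fun y z => hL.1 y z⟩
    have hd' : (Finset.univ.filter fun p : Fin n × Fin n × Fin n =>
        (fun y z x => L x y z) p.1 p.2.1 p.2.2 ≠ A (B p.1 p.2.1) p.2.2).card <
          2 * n * (n - 1) := by
      refine lt_of_le_of_lt ?_ hd
      refine Finset.card_le_card_of_injOn (fun p => (p.2.2, p.1, p.2.1)) ?_ ?_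
      · intro p hp
        have hp' := (Finset.mem_filter.1 hp).2
        refine Finset.mem_coe.2 (Finset.mem_filter.2 ⟨Finset.mem_univ _, ?_⟩)
        rw [h]
        exact hp'
      · rintro ⟨a, b, c⟩ _ ⟨a', b', c'⟩ _ e
        simp only [Prod.mk.injEq] at e ⊢
        tauto
    obtain ⟨σ, τ, hst⟩ := first (fun y z x => L x y z) hL' A B hA hB hd'
    refine ⟨τ⁻¹, τ⁻¹.trans σ, ?_⟩
    intro x x' e
    have e1 : L x (τ⁻¹ x) (σ (τ⁻¹ x)) = L x' (τ⁻¹ x') (σ (τ⁻¹ x')) := e
    have e2 : ∀ x, τ (τ⁻¹ x) = x := fun x => τ.apply_symm_apply x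
    have e3 : (fun y => L (τ y) y (σ y)) (τ⁻¹ x) = (fun y => L (τ y) y (σ y)) (τ⁻¹ x') := by
      show L (τ (τ⁻¹ x)) (τ⁻¹ x) (σ (τ⁻¹ x)) = L (τ (τ⁻¹ x')) (τ⁻¹ x') (σ (τ⁻¹ x'))
      rw [e2, e2]
      exact e1
    exact τ⁻¹.injective (hst e3)

end Pool.Agent.Results.MP_cdd51b_co.NearReducible
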